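import Mathlib

/-!
# Differences of `m`-th powers modulo a prime

If `p > 16 m⁴` is a prime then every nonzero residue class mod `p` is a difference of two nonzero `m`-th powers.
-/

set_option autoImplicit false

namespace Pool.Agent.Q174.BM

open Finset

/-- The number of `v ∈ H` with `a v + b ∈ H`. -/
def cnt {p : ℕ} [Fact p.Prime] (H : Finset (ZMod p)) (ab : ZMod p × ZMod p) : ℕ :=
  (H.filter fun v => ab.1 * v + ab.2 ∈ H).card

variable {p : ℕ} [Fact p.Prime]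

theorem card_line (H : Finset (ZMod p)) (v : ZMod p) :
    ((univ : Finset (ZMod p × ZMod p)).filter fun ab => ab.1 * v + ab.2 ∈ H).card = p * H.card := by
  have h1 : ((univ : Finset (ZMod p × ZMod p)).filter fun ab => ab.1 * v + ab.2 ∈ H).card
      = ((univ : Finset (ZMod p)) ×ˢ H).card := by
    refine Finset.card_bij (fun ab _ => (ab.1, ab.1 * v + ab.2)) ?_ ?_ ?_
    · intro ab hab
      rw [mem_filter] at hab
      exact mem_product.2 ⟨mem_univ _, hab.2⟩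
    · rintro ⟨a, b⟩ _ ⟨a', b'⟩ _ h
      rw [Prod.mk.injEq] at h
      obtain ⟨h1, h2⟩ := h
      have h1' : a = a' := h1
      have h2' : a * v + b = a' * v + b' := h2
      rw [h1'] at h2'
      rw [h1', add_left_cancel h2']
    · rintro ⟨a, c⟩ h
      have hc : c ∈ H := (mem_product.1 h).2
      refine ⟨(a, c - a * v), ?_, ?_⟩
      · rw [mem_filter]
        refine ⟨mem_univ _, ?_⟩
        have h3 : a * v + (c - a * v) = c := by ring
        show a * v + (c - a * v) ∈ H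
        rw [h3]
        exact hc
      · have h3 : a * v + (c - a * v) = c := by ring
        show (a, a * v + (c - a * v)) = (a, c)
        rw [h3]
  rw [h1, card_product, card_univ, ZMod.card]

theorem card_two_lines (H : Finset (ZMod p)) {v w : ZMod p} (hvw : v ≠ w) :
    ((univ : Finset (ZMod p × ZMod p)).filter fun ab => ab.1 * v + ab.2 ∈ H ∧ ab.1 * w + ab.2 ∈ H).card
      ≤ H.card ^ 2 := by
  have h1 : ((univ : Finset (ZMod p × ZMod p)).filter fun ab => ab.1 * v + ab.2 ∈ H ∧ ab.1 * w + ab.2 ∈ H).card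
      ≤ (H ×ˢ H).card := by
    refine Finset.card_le_card_of_injOn (fun ab => (ab.1 * v + ab.2, ab.1 * w + ab.2)) ?_ ?_
    · intro ab hab
      have hab' := (mem_filter.1 (mem_coe.1 hab)).2
      exact mem_coe.2 (mem_product.2 hab')
    · rintro ⟨a, b⟩ _ ⟨a', b'⟩ _ h
      have h' : (a * v + b, a * w + b) = (a' * v + b', a' * w + b') := h
      rw [Prod.mk.injEq] at h'
      obtain ⟨h1, h2⟩ := h'
      have h3 : (a - a') * (v - w) = 0 := by linear_combination h1 - h2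
      have h4 : a = a' := by
        rcases mul_eq_zero.1 h3 with h | h
        · exact sub_eq_zero.1 h
        · exact absurd (sub_eq_zero.1 h) hvw
      rw [h4] at h1
      rw [h4, add_left_cancel h1]
  rw [card_product] at h1
  rw [pow_two]
  exact h1

theorem sum_cnt (H : Finset (ZMod p)) : ∑ ab : ZMod p × ZMod p, cnt H ab = p * H.card ^ 2 := by
  have h1 : ∀ ab : ZMod p × ZMod p, cnt H ab = ∑ v ∈ H, if ab.1 * v + ab.2 ∈ H then 1 else 0 := by
    intro ab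
    rw [cnt, card_filter]
  rw [sum_congr rfl fun ab _ => h1 ab, sum_comm]
  have h2 : ∀ v ∈ H, (∑ ab : ZMod p × ZMod p, if ab.1 * v + ab.2 ∈ H then 1 else 0) = p * H.card := by
    intro v _
    rw [← card_line H v, card_filter]
  rw [sum_congr rfl h2, sum_const, smul_eq_mul]
  ring

theorem sum_cnt_sq (H : Finset (ZMod p)) :
    ∑ ab : ZMod p × ZMod p, cnt H ab ^ 2 ≤ p * H.card ^ 2 + H.card ^ 4 := by
  have h1 : ∀ ab : ZMod p × ZMod p, cnt H ab ^ 2 =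
      ∑ v ∈ H, ∑ w ∈ H, if (ab.1 * v + ab.2 ∈ H ∧ ab.1 * w + ab.2 ∈ H) then 1 else 0 := by
    intro ab
    rw [cnt, card_filter, pow_two, sum_mul_sum]
    refine sum_congr rfl fun v _ => sum_congr rfl fun w _ => ?_
    by_cases h1 : ab.1 * v + ab.2 ∈ H
    · by_cases h2 : ab.1 * w + ab.2 ∈ H
      · rw [if_pos h1, if_pos h2, if_pos ⟨h1, h2⟩, one_mul]
      · have h3 : ¬ (ab.1 * v + ab.2 ∈ H ∧ ab.1 * w + ab.2 ∈ H) := fun h => h2 h.2
        rw [if_pos h1, if_neg h2, if_neg h3, mul_zero]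
    · have h3 : ¬ (ab.1 * v + ab.2 ∈ H ∧ ab.1 * w + ab.2 ∈ H) := fun h => h1 h.1
      rw [if_neg h1, if_neg h3, zero_mul]
  have h2 : ∑ ab : ZMod p × ZMod p, cnt H ab ^ 2 =
      ∑ v ∈ H, ∑ w ∈ H, ((univ : Finset (ZMod p × ZMod p)).filter
        fun ab => ab.1 * v + ab.2 ∈ H ∧ ab.1 * w + ab.2 ∈ H).card := by
    rw [sum_congr rfl fun ab _ => h1 ab, sum_comm]
    refine sum_congr rfl fun v _ => ?_
    rw [sum_comm]
    refine sum_congr rfl fun w _ => ?_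
    rw [card_filter]
  rw [h2]
  have h3 : ∀ v ∈ H, ∑ w ∈ H, ((univ : Finset (ZMod p × ZMod p)).filter
        fun ab => ab.1 * v + ab.2 ∈ H ∧ ab.1 * w + ab.2 ∈ H).card ≤ p * H.card + H.card * H.card ^ 2 := by
    intro v hv
    have h4 : ∀ w ∈ H, ((univ : Finset (ZMod p × ZMod p)).filter
        fun ab => ab.1 * v + ab.2 ∈ H ∧ ab.1 * w + ab.2 ∈ H).card ≤ (if w = v then p * H.card else 0) + H.card ^ 2 := by
      intro w _
      by_cases h : w = v
      · rw [if_pos h, h]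
        refine le_trans ?_ (Nat.le_add_right _ _)
        rw [← card_line H v]
        refine card_le_card fun ab hab => ?_
        rw [mem_filter] at hab ⊢
        exact ⟨hab.1, hab.2.1⟩
      · rw [if_neg h, zero_add]
        exact card_two_lines H fun h' => h h'.symm
    refine le_trans (sum_le_sum h4) ?_
    rw [sum_add_distrib, sum_const, smul_eq_mul, sum_ite_eq' H v, if_pos hv]
  refine le_trans (sum_le_sum h3) ?_
  rw [sum_const, smul_eq_mul]
  exact le_of_eq (by ring)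

/-- The second moment: if the lines of the family `L` do not meet `H × H` then `|L| |H|^4 ≤ p^3 |H|^2`. -/
theorem card_empty_lines (H : Finset (ZMod p)) (L : Finset (ZMod p × ZMod p))
    (hL : ∀ ab ∈ L, cnt H ab = 0) : (L.card : ℤ) * (H.card : ℤ) ^ 4 ≤ (p : ℤ) ^ 3 * (H.card : ℤ) ^ 2 := by
  have h1 : ((∑ ab : ZMod p × ZMod p, cnt H ab : ℕ) : ℤ) = (p : ℤ) * (H.card : ℤ) ^ 2 := by
    rw [sum_cnt]; push_cast; ring
  have h2 : ((∑ ab : ZMod p × ZMod p, cnt H ab ^ 2 : ℕ) : ℤ) ≤ (p : ℤ) * (H.card : ℤ) ^ 2 + (H.card : ℤ) ^ 4 := by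
    exact_mod_cast sum_cnt_sq H
  have h3 : ∑ ab : ZMod p × ZMod p, ((p : ℤ) * (cnt H ab : ℤ) - (H.card : ℤ) ^ 2) ^ 2
      ≤ (p : ℤ) ^ 3 * (H.card : ℤ) ^ 2 := by
    have h4 : ∑ ab : ZMod p × ZMod p, ((p : ℤ) * (cnt H ab : ℤ) - (H.card : ℤ) ^ 2) ^ 2
        = (p : ℤ) ^ 2 * ((∑ ab : ZMod p × ZMod p, cnt H ab ^ 2 : ℕ) : ℤ)
          - 2 * (p : ℤ) * (H.card : ℤ) ^ 2 * ((∑ ab : ZMod p × ZMod p, cnt H ab : ℕ) : ℤ)
          + (p : ℤ) ^ 2 * (H.card : ℤ) ^ 4 := by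
      push_cast
      have h5 : ∀ ab : ZMod p × ZMod p, ((p : ℤ) * (cnt H ab : ℤ) - (H.card : ℤ) ^ 2) ^ 2 =
          (p : ℤ) ^ 2 * (cnt H ab : ℤ) ^ 2 - 2 * (p : ℤ) * (H.card : ℤ) ^ 2 * (cnt H ab : ℤ) + (H.card : ℤ) ^ 4 := by
        intro ab; ring
      rw [sum_congr rfl fun ab _ => h5 ab, sum_add_distrib, sum_sub_distrib, ← mul_sum, ← mul_sum, sum_const,
        card_univ, Fintype.card_prod, ZMod.card, nsmul_eq_mul]
      push_cast
      ring
    rw [h4, h1]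
    have h6 : (p : ℤ) ^ 2 * ((∑ ab : ZMod p × ZMod p, cnt H ab ^ 2 : ℕ) : ℤ)
        ≤ (p : ℤ) ^ 2 * ((p : ℤ) * (H.card : ℤ) ^ 2 + (H.card : ℤ) ^ 4) :=
      mul_le_mul_of_nonneg_left h2 (sq_nonneg _)
    nlinarith [h6]
  refine le_trans ?_ h3
  refine le_trans ?_ (sum_le_sum_of_subset_of_nonneg (subset_univ L) fun ab _ _ => sq_nonneg _)
  have h7 : ∀ ab ∈ L, ((p : ℤ) * (cnt H ab : ℤ) - (H.card : ℤ) ^ 2) ^ 2 = (H.card : ℤ) ^ 4 := by
    intro ab hab
    rw [hL ab hab]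
    push_cast
    ring
  rw [sum_congr rfl h7, sum_const, nsmul_eq_mul]

/-- If `|H|^4 > p^3` and `c ≠ 0` then `u v - w = c z` has a solution in `H`. -/
theorem exists_sol (H : Finset (ZMod p)) (hH : (p : ℤ) ^ 3 < (H.card : ℤ) ^ 4) (c : ZMod p) (hc : c ≠ 0) :
    ∃ u ∈ H, ∃ v ∈ H, ∃ w ∈ H, ∃ z ∈ H, u * v - w = c * z := by
  by_contra hcon
  have hno : ∀ u ∈ H, ∀ v ∈ H, ∀ w ∈ H, ∀ z ∈ H, u * v - w ≠ c * z := by
    intro u hu v hv w hw z hz h
    exact hcon ⟨u, hu, v, hv, w, hw, z, hz, h⟩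
  have hcard : ((H ×ˢ H).image fun uw : ZMod p × ZMod p => (c⁻¹ * uw.1, -(c⁻¹ * uw.2))).card = H.card ^ 2 := by
    rw [card_image_of_injective, card_product, pow_two]
    rintro ⟨u, w⟩ ⟨u', w'⟩ h
    have h' : (c⁻¹ * u, -(c⁻¹ * w)) = (c⁻¹ * u', -(c⁻¹ * w')) := h
    rw [Prod.mk.injEq] at h'
    have h1 := mul_left_cancel₀ (inv_ne_zero hc) h'.1
    have h2 := mul_left_cancel₀ (inv_ne_zero hc) (neg_injective h'.2)
    rw [h1, h2]
  have h := card_empty_lines H ((H ×ˢ H).image fun uw : ZMod p × ZMod p => (c⁻¹ * uw.1, -(c⁻¹ * uw.2))) ?_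
  · rw [hcard] at h
    push_cast at h
    have hpos : 0 < H.card := by
      rcases Nat.eq_zero_or_pos H.card with h0 | h0
      · rw [h0] at hH
        exfalso
        have : (0 : ℤ) ≤ (p : ℤ) ^ 3 := by positivity
        norm_num at hH
        omega
      · exact h0
    have hpos' : (0 : ℤ) < (H.card : ℤ) ^ 2 := by positivity
    nlinarith [mul_lt_mul_of_pos_left hH hpos']
  · intro ab hab
    rw [mem_image] at hab
    obtain ⟨⟨u, w⟩, huw, rfl⟩ := hab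
    rw [mem_product] at huw
    rw [cnt, card_eq_zero, filter_eq_empty_iff]
    intro v hv hz
    refine hno u huw.1 v hv w huw.2 _ hz ?_
    show u * v - w = c * (c⁻¹ * u * v + -(c⁻¹ * w))
    have h1 : c * (c⁻¹ * u * v + -(c⁻¹ * w)) = (c * c⁻¹) * (u * v - w) := by ring
    rw [h1, mul_inv_cancel₀ hc, one_mul]

/-- The set of nonzero `m`-th powers. -/
def powers (p : ℕ) [Fact p.Prime] (m : ℕ) : Finset (ZMod p) :=
  (univ : Finset (ZMod p)ˣ).image fun u => ((u ^ m : (ZMod p)ˣ) : ZMod p)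

theorem card_powers (m : ℕ) (hm : 0 < m) : p - 1 ≤ (powers p m).card * m := by
  have h1 : (powers p m).card = Nat.card (powMonoidHom m : (ZMod p)ˣ →* (ZMod p)ˣ).range := by
    have h2 : powers p m = ((univ : Finset (ZMod p)ˣ).image fun u : (ZMod p)ˣ => u ^ m).image
        (Units.val : (ZMod p)ˣ → ZMod p) := by
      rw [powers, image_image]
      rfl
    rw [h2, card_image_of_injective _ Units.val_injective]
    have h3 : ((powMonoidHom m : (ZMod p)ˣ →* (ZMod p)ˣ).range : Set (ZMod p)ˣ)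
        = (((univ : Finset (ZMod p)ˣ).image fun u => u ^ m : Finset (ZMod p)ˣ) : Set (ZMod p)ˣ) := by
      ext x
      rw [MonoidHom.coe_range, Set.mem_range, mem_coe, mem_image]
      constructor
      · rintro ⟨y, hy⟩
        exact ⟨y, mem_univ _, hy⟩
      · rintro ⟨y, _, hy⟩
        exact ⟨y, hy⟩
    have h4 : Nat.card (powMonoidHom m : (ZMod p)ˣ →* (ZMod p)ˣ).range
        = (((powMonoidHom m : (ZMod p)ˣ →* (ZMod p)ˣ).range : Set (ZMod p)ˣ)).ncard := rfl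
    rw [h4, h3, Set.ncard_coe_finset]
  rw [h1, IsCyclic.card_powMonoidHom_range, Nat.card_eq_fintype_card, ZMod.card_units]
  have h5 : (p - 1) / (p - 1).gcd m * (p - 1).gcd m = p - 1 := Nat.div_mul_cancel (Nat.gcd_dvd_left _ _)
  calc p - 1 = (p - 1) / (p - 1).gcd m * (p - 1).gcd m := h5.symm
    _ ≤ (p - 1) / (p - 1).gcd m * m := Nat.mul_le_mul_left _ (Nat.gcd_le_right _ hm)

/-- Every nonzero class modulo a prime `p > 16 m⁴` is a difference of two `m`-th powers of units. -/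
theorem fp_rep (m : ℕ) (hm : 0 < m) (hp : 16 * m ^ 4 < p) (c : ZMod p) (hc : c ≠ 0) :
    ∃ u v : ZMod p, u ≠ 0 ∧ v ≠ 0 ∧ u ^ m - v ^ m = c := by
  have hcard := card_powers (p := p) m hm
  have hH : (p : ℤ) ^ 3 < ((powers p m).card : ℤ) ^ 4 := by
    have hp1 : 1 ≤ p := (Fact.out : p.Prime).one_lt.le
    have h1 : (p : ℤ) - 1 ≤ ((powers p m).card : ℤ) * m := by
      have : ((p - 1 : ℕ) : ℤ) ≤ (((powers p m).card * m : ℕ) : ℤ) := by exact_mod_cast hcard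
      rw [Nat.cast_sub hp1] at this
      push_cast at this
      linarith
    have hp2 : (2 : ℤ) ≤ p := by exact_mod_cast (Fact.out : p.Prime).two_le
    have h2 : (p : ℤ) ≤ 2 * (((powers p m).card : ℤ) * m) := by linarith
    have h3 : (p : ℤ) ^ 4 ≤ (2 * (((powers p m).card : ℤ) * m)) ^ 4 :=
      pow_le_pow_left₀ (by positivity) h2 4
    have h4 : (p : ℤ) ^ 4 ≤ 16 * (m : ℤ) ^ 4 * ((powers p m).card : ℤ) ^ 4 := by
      calc (p : ℤ) ^ 4 ≤ (2 * (((powers p m).card : ℤ) * m)) ^ 4 := h3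
        _ = 16 * (m : ℤ) ^ 4 * ((powers p m).card : ℤ) ^ 4 := by ring
    have h5 : (16 : ℤ) * (m : ℤ) ^ 4 < p := by exact_mod_cast hp
    by_contra hcon
    have h6 : ((powers p m).card : ℤ) ^ 4 ≤ (p : ℤ) ^ 3 := not_lt.1 hcon
    have h7 : (16 : ℤ) * (m : ℤ) ^ 4 * ((powers p m).card : ℤ) ^ 4 ≤ 16 * (m : ℤ) ^ 4 * (p : ℤ) ^ 3 :=
      mul_le_mul_of_nonneg_left h6 (by positivity)
    have h8 : (16 : ℤ) * (m : ℤ) ^ 4 * (p : ℤ) ^ 3 < p * (p : ℤ) ^ 3 :=
      mul_lt_mul_of_pos_right h5 (by positivity)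
    have h9 : (p : ℤ) ^ 4 = p * (p : ℤ) ^ 3 := by ring
    linarith
  obtain ⟨u, hu, v, hv, w, hw, z, hz, h⟩ := exists_sol (powers p m) hH c hc
  rw [powers, mem_image] at hu hv hw hz
  obtain ⟨u', _, rfl⟩ := hu
  obtain ⟨v', _, rfl⟩ := hv
  obtain ⟨w', _, rfl⟩ := hw
  obtain ⟨z', _, rfl⟩ := hz
  refine ⟨((u' * v' * z'⁻¹ : (ZMod p)ˣ) : ZMod p), ((w' * z'⁻¹ : (ZMod p)ˣ) : ZMod p), Units.ne_zero _,
    Units.ne_zero _, ?_⟩
  have h1 : (((z'⁻¹) ^ m : (ZMod p)ˣ) : ZMod p) * (((z') ^ m : (ZMod p)ˣ) : ZMod p) = 1 := by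
    rw [← Units.val_mul, ← mul_pow, inv_mul_cancel, one_pow, Units.val_one]
  have h2 : (((u' * v' * z'⁻¹ : (ZMod p)ˣ) : ZMod p)) ^ m - (((w' * z'⁻¹ : (ZMod p)ˣ) : ZMod p)) ^ m
      = (((z'⁻¹) ^ m : (ZMod p)ˣ) : ZMod p) * ((((u') ^ m : (ZMod p)ˣ) : ZMod p) * (((v') ^ m : (ZMod p)ˣ) : ZMod p)
        - (((w') ^ m : (ZMod p)ˣ) : ZMod p)) := by
    push_cast
    ring
  rw [h2, h]
  calc (((z'⁻¹) ^ m : (ZMod p)ˣ) : ZMod p) * (c * (((z') ^ m : (ZMod p)ˣ) : ZMod p))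
      = c * ((((z'⁻¹) ^ m : (ZMod p)ˣ) : ZMod p) * (((z') ^ m : (ZMod p)ˣ) : ZMod p)) := by ring
    _ = c := by rw [h1, mul_one]

end Pool.Agent.Q174.BM
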