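import Pool.Agent.Q174.BM.Rep

/-!
# Sets in `ℤ/N` which are invariant under multiplication by `m`-th powers of units

`2A - 2A` contains a subgroup of small index.
-/

set_option autoImplicit false

namespace Pool.Agent.Q174.BM

open Finset

/-- The number of `x` in `ℤ/N` with `d ∣ x` is at most `N / d`. -/
theorem card_mult {N : ℕ} [NeZero N] (d : ℕ) (hd : d ∣ N) :
    ((univ : Finset (ZMod N)).filter fun x => d ∣ x.val).card ≤ N / d := by
  have hN : 0 < N := Nat.pos_of_ne_zero (NeZero.ne N)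
  have hd0 : 0 < d := Nat.pos_of_dvd_of_pos hd hN
  rw [← card_range (N / d)]
  refine card_le_card_of_injOn (fun x => x.val / d) ?_ ?_
  · intro x _
    rw [mem_coe, mem_range]
    refine Nat.div_lt_div_of_lt_of_dvd hd (ZMod.val_lt x)
  · intro x hx y hy h
    have hx' := (mem_filter.1 (mem_coe.1 hx)).2
    have hy' := (mem_filter.1 (mem_coe.1 hy)).2
    apply ZMod.val_injective
    have h' : x.val / d = y.val / d := h
    rw [← Nat.div_mul_cancel hx', ← Nat.div_mul_cancel hy', h']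

/-- A dense set contains two elements whose greatest common divisor with `N` is small. -/
theorem pair_small_gcd {N : ℕ} [NeZero N] (B : Finset (ZMod N)) (hB : B.Nonempty) (D : ℕ)
    (hD : ((N : ℝ) / B.card) ^ 2 ≤ D) : ∃ x ∈ B, ∃ y ∈ B, Nat.gcd (Nat.gcd x.val y.val) N ≤ D := by
  have hN : 0 < N := Nat.pos_of_ne_zero (NeZero.ne N)
  have hNR : (0 : ℝ) < N := by exact_mod_cast hN
  have hB0 : (0 : ℝ) < B.card := by exact_mod_cast hB.card_pos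
  have hD0 : (0 : ℝ) < D := lt_of_lt_of_le (by positivity) hD
  have hD0' : D ≠ 0 := by
    intro h
    rw [h] at hD0
    norm_num at hD0
  by_contra hcon
  have hno : ∀ x ∈ B, ∀ y ∈ B, D < Nat.gcd (Nat.gcd x.val y.val) N := by
    intro x hx y hy
    exact not_le.1 fun h => hcon ⟨x, hx, y, hy, h⟩
  have hDN : D ≤ N := by
    obtain ⟨x, hx⟩ := hB
    exact (hno x hx x hx).le.trans (Nat.gcd_le_right _ hN)
  have hsub : B ×ˢ B ⊆ ((Ioc D N).filter fun d => d ∣ N).biUnion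
      fun d => ((univ : Finset (ZMod N)).filter fun x => d ∣ x.val) ×ˢ
        ((univ : Finset (ZMod N)).filter fun x => d ∣ x.val) := by
    rintro ⟨x, y⟩ hxy
    rw [mem_product] at hxy
    rw [mem_biUnion]
    refine ⟨Nat.gcd (Nat.gcd x.val y.val) N, ?_, ?_⟩
    · rw [mem_filter, mem_Ioc]
      exact ⟨⟨hno x hxy.1 y hxy.2, Nat.gcd_le_right _ hN⟩, Nat.gcd_dvd_right _ _⟩
    · rw [mem_product, mem_filter, mem_filter]
      exact ⟨⟨mem_univ _, (Nat.gcd_dvd_left _ _).trans (Nat.gcd_dvd_left _ _)⟩,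
        ⟨mem_univ _, (Nat.gcd_dvd_left _ _).trans (Nat.gcd_dvd_right _ _)⟩⟩
  have h1 : B.card * B.card ≤ ∑ d ∈ (Ioc D N).filter fun d => d ∣ N, (N / d) * (N / d) := by
    rw [← card_product]
    refine (card_le_card hsub).trans (card_biUnion_le.trans (sum_le_sum fun d hd => ?_))
    rw [card_product]
    exact Nat.mul_le_mul (card_mult d (mem_filter.1 hd).2) (card_mult d (mem_filter.1 hd).2)
  have h2 : (B.card : ℝ) ^ 2 ≤ ∑ d ∈ Ioc D N, (N : ℝ) ^ 2 * ((d : ℝ) ^ 2)⁻¹ := by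
    have h3 : ((B.card * B.card : ℕ) : ℝ) ≤ ((∑ d ∈ (Ioc D N).filter fun d => d ∣ N, (N / d) * (N / d) : ℕ) : ℝ) := by
      exact_mod_cast h1
    rw [Nat.cast_mul, ← pow_two, Nat.cast_sum] at h3
    refine h3.trans ?_
    refine (sum_le_sum fun d hd => ?_).trans
      (sum_le_sum_of_subset_of_nonneg (filter_subset (fun d => d ∣ N) (Ioc D N)) fun d _ _ => by positivity)
    have h4 : ((N / d : ℕ) : ℝ) ≤ (N : ℝ) / d := Nat.cast_div_le
    rw [Nat.cast_mul]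
    calc ((N / d : ℕ) : ℝ) * ((N / d : ℕ) : ℝ) ≤ (N : ℝ) / d * ((N : ℝ) / d) :=
          mul_le_mul h4 h4 (Nat.cast_nonneg _) (by positivity)
      _ = (N : ℝ) ^ 2 * ((d : ℝ) ^ 2)⁻¹ := by
          rw [div_mul_div_comm, ← pow_two, ← pow_two, div_eq_mul_inv]
  rw [← mul_sum] at h2
  have h5 : (∑ d ∈ Ioc D N, ((d : ℝ) ^ 2)⁻¹) ≤ (D : ℝ)⁻¹ - (N : ℝ)⁻¹ := sum_Ioc_inv_sq_le_sub hD0' hDN
  have h6 : (B.card : ℝ) ^ 2 < (N : ℝ) ^ 2 * (D : ℝ)⁻¹ := by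
    refine lt_of_le_of_lt (h2.trans (mul_le_mul_of_nonneg_left h5 (by positivity))) ?_
    refine mul_lt_mul_of_pos_left ?_ (by positivity)
    have : (0 : ℝ) < (N : ℝ)⁻¹ := by positivity
    linarith
  have h7 : (N : ℝ) ^ 2 * (D : ℝ)⁻¹ ≤ (B.card : ℝ) ^ 2 := by
    rw [div_pow, div_le_iff₀ (by positivity)] at hD
    rw [← div_eq_mul_inv, div_le_iff₀ hD0]
    linarith
  linarith

theorem diff_mem {N : ℕ} (m L : ℕ) (A : Finset (ZMod N)) (hL : Rep m L N) (d : ZMod N)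
    (hd : ∃ t : ZMod N, ∀ u : ZMod N, IsUnit u → t + u ^ m * d ∈ A) (w : ZMod N) :
    ∃ a ∈ A, ∃ b ∈ A, a - b = (L : ZMod N) * w * d := by
  obtain ⟨t, ht⟩ := hd
  obtain ⟨u, v, hu, hv, huv⟩ := hL w
  refine ⟨_, ht u hu, _, ht v hv, ?_⟩
  rw [← huv]
  ring

theorem two_two_mem {N : ℕ} [NeZero N] (m L : ℕ) (A : Finset (ZMod N)) (hL : Rep m L N) (x y : ZMod N)
    (hx : ∃ t : ZMod N, ∀ u : ZMod N, IsUnit u → t + u ^ m * x ∈ A)
    (hy : ∃ t : ZMod N, ∀ u : ZMod N, IsUnit u → t + u ^ m * y ∈ A) (z : ZMod N) :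
    ∃ a₁ ∈ A, ∃ a₂ ∈ A, ∃ a₃ ∈ A, ∃ a₄ ∈ A,
      ((L * Nat.gcd (Nat.gcd x.val y.val) N : ℕ) : ZMod N) * z = a₁ + a₂ - a₃ - a₄ := by
  have h1 : ((Nat.gcd (Nat.gcd x.val y.val) N : ℕ) : ZMod N)
      = ((Nat.gcd x.val y.val : ℕ) : ZMod N)
        * (Nat.gcdA (Nat.gcd x.val y.val) N : ℤ) := by
    have h := congrArg (fun n : ℤ => (n : ZMod N)) (Nat.gcd_eq_gcd_ab (Nat.gcd x.val y.val) N)
    push_cast at h
    rw [h, ZMod.natCast_self, zero_mul, add_zero]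
  have h2 : ((Nat.gcd x.val y.val : ℕ) : ZMod N)
      = x * (Nat.gcdA x.val y.val : ℤ) + y * (Nat.gcdB x.val y.val : ℤ) := by
    have h := congrArg (fun n : ℤ => (n : ZMod N)) (Nat.gcd_eq_gcd_ab x.val y.val)
    push_cast at h
    rw [h, ZMod.natCast_zmod_val, ZMod.natCast_zmod_val]
  obtain ⟨a, ha, b, hb, hab⟩ := diff_mem m L A hL x hx
    ((Nat.gcdA x.val y.val : ℤ) * (Nat.gcdA (Nat.gcd x.val y.val) N : ℤ) * z)
  obtain ⟨c, hc, d, hd, hcd⟩ := diff_mem m L A hL y hy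
    ((Nat.gcdB x.val y.val : ℤ) * (Nat.gcdA (Nat.gcd x.val y.val) N : ℤ) * z)
  refine ⟨a, ha, c, hc, b, hb, d, hd, ?_⟩
  have h3 : a + c - b - d = (a - b) + (c - d) := by ring
  rw [h3, hab, hcd, Nat.cast_mul, h1, h2]
  ring

/-- The subgroup part of the theorem. -/
theorem exists_subgroup {N : ℕ} [NeZero N] (m : ℕ) (hm : 0 < m) (A D : Finset (ZMod N)) (hDne : D.Nonempty)
    (hA : ∀ d ∈ D, ∃ t : ZMod N, ∀ u : ZMod N, IsUnit u → t + u ^ m * d ∈ A) :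
    ∃ M : ℕ, M ∣ N ∧ (M : ℝ) ≤ 2 * (m : ℝ) ^ 2 * 4 ^ (16 * m ^ 4) * ((N : ℝ) / D.card) ^ 2 ∧
      ∀ w : ZMod N, ∃ a₁ ∈ A, ∃ a₂ ∈ A, ∃ a₃ ∈ A, ∃ a₄ ∈ A, (M : ZMod N) * w = a₁ + a₂ - a₃ - a₄ := by
  have hN : 0 < N := Nat.pos_of_ne_zero (NeZero.ne N)
  have hNR : (0 : ℝ) < N := by exact_mod_cast hN
  have hA0 : (0 : ℝ) < D.card := by exact_mod_cast hDne.card_pos
  have hAN : (D.card : ℝ) ≤ N := by
    have : D.card ≤ N := by
      have h := card_le_univ D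
      rwa [ZMod.card] at h
    exact_mod_cast this
  have hge1 : 1 ≤ ((N : ℝ) / D.card) ^ 2 := by
    have h1 : 1 ≤ (N : ℝ) / D.card := by
      rw [le_div_iff₀ hA0, one_mul]
      exact hAN
    exact one_le_pow₀ h1
  obtain ⟨x, hx, y, hy, hg⟩ := pair_small_gcd D hDne ⌈((N : ℝ) / D.card) ^ 2⌉₊ (Nat.le_ceil _)
  have hkey := two_two_mem m _ A (rep_all m hm N hN.ne') x y (hA x hx) (hA y hy)
  have hL0 : 0 < m ^ 2 * primorial (16 * m ^ 4) := by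
    have := primorial_pos (16 * m ^ 4)
    positivity
  have hLle : ((m ^ 2 * primorial (16 * m ^ 4) : ℕ) : ℝ) ≤ (m : ℝ) ^ 2 * 4 ^ (16 * m ^ 4) := by
    push_cast
    refine mul_le_mul_of_nonneg_left ?_ (by positivity)
    exact_mod_cast primorial_le_four_pow (16 * m ^ 4)
  generalize m ^ 2 * primorial (16 * m ^ 4) = L at hkey hL0 hLle
  have hg0 : 0 < Nat.gcd (Nat.gcd x.val y.val) N := Nat.gcd_pos_of_pos_right _ hN
  generalize Nat.gcd (Nat.gcd x.val y.val) N = g at hkey hg hg0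
  refine ⟨Nat.gcd (L * g) N, Nat.gcd_dvd_right _ _, ?_, ?_⟩
  · have h1 : (Nat.gcd (L * g) N : ℝ) ≤ (L : ℝ) * g := by
      have : Nat.gcd (L * g) N ≤ L * g := Nat.gcd_le_left _ (Nat.mul_pos hL0 hg0)
      exact_mod_cast this
    have h2 : (g : ℝ) ≤ 2 * ((N : ℝ) / D.card) ^ 2 := by
      have h3 : (g : ℝ) ≤ (⌈((N : ℝ) / D.card) ^ 2⌉₊ : ℝ) := by exact_mod_cast hg
      have h4 : (⌈((N : ℝ) / D.card) ^ 2⌉₊ : ℝ) < ((N : ℝ) / D.card) ^ 2 + 1 := Nat.ceil_lt_add_one (by positivity)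
      linarith
    calc (Nat.gcd (L * g) N : ℝ) ≤ (L : ℝ) * g := h1
      _ ≤ ((m : ℝ) ^ 2 * 4 ^ (16 * m ^ 4)) * (2 * ((N : ℝ) / D.card) ^ 2) :=
          mul_le_mul hLle h2 (Nat.cast_nonneg _) (by positivity)
      _ = 2 * (m : ℝ) ^ 2 * 4 ^ (16 * m ^ 4) * ((N : ℝ) / D.card) ^ 2 := by ring
  · intro w
    have h1 : ((Nat.gcd (L * g) N : ℕ) : ZMod N) = ((L * g : ℕ) : ZMod N) * (Nat.gcdA (L * g) N : ℤ) := by
      have h := congrArg (fun n : ℤ => (n : ZMod N)) (Nat.gcd_eq_gcd_ab (L * g) N)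
      push_cast at h
      rw [h, ZMod.natCast_self, zero_mul, add_zero, Nat.cast_mul]
    rw [h1, mul_assoc]
    exact hkey _

/-- The subgroup `M ℤ/N` contains the Bohr set with the frequencies `2^i N / M`, `i ≤ log_2 M`, and radius `1/5`. -/
theorem dvd_of_bohr {N : ℕ} [NeZero N] (M : ℕ) (hM : M ∣ N) (x : ZMod N)
    (hx : ∀ i : ℕ, i ≤ Nat.log 2 M → ∃ n : ℤ,
      |((((2 ^ i * (N / M) : ℕ) : ZMod N) * x).val : ℝ) / (N : ℝ) - (n : ℝ)| ≤ 1 / 5) : M ∣ x.val := by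
  have hN : 0 < N := Nat.pos_of_ne_zero (NeZero.ne N)
  have hNR : (0 : ℝ) < N := by exact_mod_cast hN
  have hM0 : 0 < M := Nat.pos_of_dvd_of_pos hM hN
  have hMR : (0 : ℝ) < M := by exact_mod_cast hM0
  obtain ⟨q, hq⟩ := hM
  have hq0 : 0 < q := by
    rcases Nat.eq_zero_or_pos q with h | h
    · rw [h, mul_zero] at hq
      omega
    · exact h
  have hNM : N / M = q := by
    rw [hq]
    exact Nat.mul_div_cancel_left q hM0
  have hNMR : (N : ℝ) = (M : ℝ) * q := by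
    rw [← Nat.cast_mul, ← hq]
  have hqR : (0 : ℝ) < q := by exact_mod_cast hq0
  have h1 : ∀ i : ℕ, i ≤ Nat.log 2 M → ∃ n : ℤ, |(2 : ℝ) ^ i * ((x.val : ℝ) / M) - (n : ℝ)| ≤ 1 / 5 := by
    intro i hi
    obtain ⟨n, hn⟩ := hx i hi
    have h2 : (((2 ^ i * (N / M) : ℕ) : ZMod N) * x).val = (2 ^ i * q * x.val) % N := by
      rw [← ZMod.val_natCast, hNM]
      congr 1
      rw [Nat.cast_mul (2 ^ i * q) x.val, ZMod.natCast_zmod_val]
    have h3 : N * ((2 ^ i * q * x.val) / N) + (2 ^ i * q * x.val) % N = 2 ^ i * q * x.val := Nat.div_add_mod _ _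
    have h4 : (N : ℝ) * (((2 ^ i * q * x.val) / N : ℕ) : ℝ) + (((2 ^ i * q * x.val) % N : ℕ) : ℝ)
        = (2 : ℝ) ^ i * q * x.val := by
      exact_mod_cast h3
    refine ⟨n + (((2 ^ i * q * x.val) / N : ℕ) : ℤ), ?_⟩
    rw [h2] at hn
    have h5 : (2 : ℝ) ^ i * ((x.val : ℝ) / M) - ((n + (((2 ^ i * q * x.val) / N : ℕ) : ℤ) : ℤ) : ℝ)
        = ((((2 ^ i * q * x.val) % N : ℕ) : ℝ)) / (N : ℝ) - (n : ℝ) := by
      have h6 : (((2 ^ i * q * x.val) % N : ℕ) : ℝ)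
          = (2 : ℝ) ^ i * q * x.val - (N : ℝ) * (((2 ^ i * q * x.val) / N : ℕ) : ℝ) := by linarith
      rw [h6, Int.cast_add, Int.cast_natCast, sub_div, mul_div_cancel_left₀ _ hNR.ne']
      have h7 : (2 : ℝ) ^ i * q * x.val / N = (2 : ℝ) ^ i * ((x.val : ℝ) / M) := by
        rw [hNMR]
        field_simp
      rw [h7]
      ring
    rw [h5]
    exact hn
  obtain ⟨n0, hn0⟩ := h1 0 (Nat.zero_le _)
  have h2 : ∀ i : ℕ, i ≤ Nat.log 2 M → |(2 : ℝ) ^ i * ((x.val : ℝ) / M) - (2 : ℝ) ^ i * (n0 : ℝ)| ≤ 1 / 5 := by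
    intro i
    induction i with
    | zero =>
      intro _
      simpa using hn0
    | succ i ih =>
      intro hi
      have h3 := ih (by omega)
      obtain ⟨n, hn⟩ := h1 (i + 1) hi
      have h4 : |((n : ℝ) - 2 * ((2 : ℝ) ^ i * (n0 : ℝ)))| ≤ 3 / 5 := by
        have h5 : (n : ℝ) - 2 * ((2 : ℝ) ^ i * (n0 : ℝ))
            = 2 * ((2 : ℝ) ^ i * ((x.val : ℝ) / M) - (2 : ℝ) ^ i * (n0 : ℝ))
              - ((2 : ℝ) ^ (i + 1) * ((x.val : ℝ) / M) - (n : ℝ)) := by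
          rw [pow_succ]
          ring
        rw [h5]
        refine (abs_sub _ _).trans ?_
        rw [abs_mul, abs_two]
        linarith
      have h6 : n = 2 * (2 ^ i * n0) := by
        have h7 : |(((n - 2 * (2 ^ i * n0) : ℤ)) : ℝ)| < 1 := by
          push_cast
          linarith
        have h8 : |n - 2 * (2 ^ i * n0)| < 1 := by exact_mod_cast h7
        have h9 := Int.abs_lt_one_iff.1 h8
        linarith
      have h10 : (2 : ℝ) ^ (i + 1) * (n0 : ℝ) = (n : ℝ) := by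
        rw [h6]
        push_cast
        rw [pow_succ]
        ring
      rw [h10]
      exact hn
  have h3 := h2 (Nat.log 2 M) le_rfl
  have h4 : (M : ℝ) < 2 * (2 : ℝ) ^ (Nat.log 2 M) := by
    have : M < 2 ^ (Nat.log 2 M + 1) := Nat.lt_pow_succ_log_self (by norm_num) M
    rw [pow_succ, mul_comm] at this
    exact_mod_cast this
  have h5 : |(x.val : ℝ) - M * (n0 : ℝ)| < 1 := by
    have h6 : (2 : ℝ) ^ (Nat.log 2 M) * ((x.val : ℝ) / M) - (2 : ℝ) ^ (Nat.log 2 M) * (n0 : ℝ)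
        = ((2 : ℝ) ^ (Nat.log 2 M) / M) * ((x.val : ℝ) - M * (n0 : ℝ)) := by
      field_simp
    rw [h6, abs_mul, abs_of_pos (by positivity)] at h3
    by_contra hcon
    have h7 : 1 ≤ |(x.val : ℝ) - M * (n0 : ℝ)| := not_lt.1 hcon
    have h8 : (1 : ℝ) / 2 < (2 : ℝ) ^ (Nat.log 2 M) / M := by
      rw [lt_div_iff₀ hMR]
      linarith
    have h9 : (2 : ℝ) ^ (Nat.log 2 M) / M * 1 ≤ (2 : ℝ) ^ (Nat.log 2 M) / M * |(x.val : ℝ) - M * (n0 : ℝ)| :=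
      mul_le_mul_of_nonneg_left h7 (by positivity)
    linarith
  have h6 : |(x.val : ℤ) - M * n0| < 1 := by
    have h7 : |(((x.val : ℤ) - M * n0 : ℤ) : ℝ)| < 1 := by
      push_cast
      exact h5
    exact_mod_cast h7
  have h7 := Int.abs_lt_one_iff.1 h6
  have h8 : (M : ℤ) ∣ (x.val : ℤ) := ⟨n0, by linarith⟩
  exact_mod_cast h8

end Pool.Agent.Q174.BM
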