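import Pool.Agent.Q174.BM.Fp

/-!
# Differences of `m`-th powers of units modulo `N`

With `L = m² ∏_{p ≤ 16 m⁴} p` every multiple of `L` modulo `N` is a difference of two `m`-th powers of units.
-/

set_option autoImplicit false

namespace Pool.Agent.Q174.BM

open Polynomial

/-- Every multiple of `L` modulo `N` is a difference of two `m`-th powers of units. -/
def Rep (m L N : ℕ) : Prop :=
  ∀ z : ZMod N, ∃ u v : ZMod N, IsUnit u ∧ IsUnit v ∧ u ^ m - v ^ m = (L : ZMod N) * z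

theorem hensel_pow {p : ℕ} [Fact p.Prime] (m : ℕ) (a w : ℤ_[p]) (ha : IsUnit a)
    (h : ‖a ^ m - w‖ < ‖(m : ℤ_[p])‖ ^ 2) : ∃ z : ℤ_[p], z ^ m = w := by
  have h1 : (aeval a) (X ^ m - C w : ℤ_[p][X]) = a ^ m - w := by
    simp
  have h2 : (aeval a) (derivative (X ^ m - C w : ℤ_[p][X])) = (m : ℤ_[p]) * a ^ (m - 1) := by
    rw [derivative_sub, derivative_C, sub_zero, derivative_X_pow]
    simp
  have h3 : ‖(aeval a) (derivative (X ^ m - C w : ℤ_[p][X]))‖ = ‖(m : ℤ_[p])‖ := by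
    rw [h2, norm_mul, norm_pow, PadicInt.isUnit_iff.1 ha, one_pow, mul_one]
  obtain ⟨z, hz, _⟩ := hensels_lemma (p := p) (F := (X ^ m - C w : ℤ_[p][X])) (a := a) (by rw [h1, h3]; exact h)
  refine ⟨z, ?_⟩
  have h4 : (aeval z) (X ^ m - C w : ℤ_[p][X]) = z ^ m - w := by
    simp
  rw [h4] at hz
  exact sub_eq_zero.1 hz

theorem isUnit_natCast_of_not_dvd {p k a : ℕ} (hp : p.Prime) (ha : ¬ p ∣ a) : IsUnit ((a : ℕ) : ZMod (p ^ k)) := by
  rw [ZMod.isUnit_iff_coprime]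
  exact (Nat.Coprime.pow_left k ((Nat.Prime.coprime_iff_not_dvd hp).2 ha)).symm

/-- Lifting of an `m`-th power modulo `p` to an `m`-th power modulo `p^k`, `p ∤ m`; and of `1`. -/
theorem lift_pow {p : ℕ} [hp : Fact p.Prime] (k m : ℕ) (hm : 0 < m) (a w : ℕ) (ha : ¬ p ∣ a) (hw : ¬ p ∣ w)
    (h : ‖(((a : ℤ) ^ m - (w : ℤ) : ℤ) : ℤ_[p])‖ < ‖(m : ℤ_[p])‖ ^ 2) :
    ∃ u : ZMod (p ^ k), IsUnit u ∧ u ^ m = (w : ZMod (p ^ k)) := by
  have h1 : ‖(a : ℤ_[p]) ^ m - (w : ℤ_[p])‖ < ‖(m : ℤ_[p])‖ ^ 2 := by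
    push_cast at h
    exact h
  have h2 : IsUnit (a : ℤ_[p]) := by
    rw [PadicInt.isUnit_iff]
    refine le_antisymm (PadicInt.norm_le_one _) (not_lt.1 fun hlt => ha ?_)
    have h3 : ‖((a : ℤ) : ℤ_[p])‖ < 1 := by
      push_cast
      exact hlt
    exact_mod_cast (PadicInt.norm_int_lt_one_iff_dvd (a : ℤ)).1 h3
  obtain ⟨z, hz⟩ := hensel_pow m (a : ℤ_[p]) (w : ℤ_[p]) h2 h1
  have h4 : (PadicInt.toZModPow k z) ^ m = (w : ZMod (p ^ k)) := by
    rw [← map_pow, hz, map_natCast]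
  refine ⟨PadicInt.toZModPow k z, ?_, h4⟩
  rw [← isUnit_pow_iff (n := m) hm.ne', h4]
  exact isUnit_natCast_of_not_dvd hp.out hw

theorem rep_big {p : ℕ} [hp : Fact p.Prime] (k m : ℕ) (hm : 0 < m) (hpm : 16 * m ^ 4 < p) :
    Rep m 1 (p ^ k) := by
  have hp1 : p.Prime := hp.out
  have hpm' : m < p := by
    have : m ≤ m ^ 4 := Nat.le_self_pow (by norm_num) m
    omega
  have hnorm : ‖(m : ℤ_[p])‖ = 1 := by
    refine le_antisymm (PadicInt.norm_le_one _) (not_lt.1 fun hlt => ?_)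
    have h3 : ‖((m : ℤ) : ℤ_[p])‖ < 1 := by
      push_cast
      exact hlt
    have h4 : p ∣ m := by exact_mod_cast (PadicInt.norm_int_lt_one_iff_dvd (m : ℤ)).1 h3
    exact absurd (Nat.le_of_dvd hm h4) (not_le.2 hpm')
  intro z
  have : NeZero (p ^ k) := ⟨pow_ne_zero _ hp1.ne_zero⟩
  have hz : ((z.val : ℕ) : ZMod (p ^ k)) = z := ZMod.natCast_zmod_val z
  by_cases hdvd : p ∣ z.val
  · have hw : ¬ p ∣ 1 + z.val := by
      intro h
      have h1 : p ∣ 1 := (Nat.dvd_add_left hdvd).1 h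
      exact hp1.one_lt.ne' (Nat.dvd_one.1 h1)
    have h1 : ¬ p ∣ 1 := fun h => hp1.one_lt.ne' (Nat.dvd_one.1 h)
    obtain ⟨u, hu, hum⟩ := lift_pow (p := p) k m hm 1 (1 + z.val) h1 hw (by
      rw [hnorm, one_pow, PadicInt.norm_int_lt_one_iff_dvd]
      have h2 : ((1 : ℕ) : ℤ) ^ m - ((1 + z.val : ℕ) : ℤ) = -(z.val : ℤ) := by
        push_cast
        rw [one_pow]
        ring
      rw [h2, dvd_neg]
      exact_mod_cast hdvd)
    refine ⟨u, 1, hu, isUnit_one, ?_⟩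
    rw [hum]
    push_cast
    rw [hz, one_pow]
    ring
  · have hc : ((z.val : ℕ) : ZMod p) ≠ 0 := by
      rw [Ne, ZMod.natCast_eq_zero_iff]
      exact hdvd
    obtain ⟨u0, v0, hu0, hv0, huv⟩ := fp_rep m hm hpm _ hc
    have hu0' : ¬ p ∣ u0.val := by
      intro h
      apply hu0
      rw [← ZMod.natCast_zmod_val u0, ZMod.natCast_eq_zero_iff]
      exact h
    have hv0' : ¬ p ∣ v0.val := by
      intro h
      apply hv0
      rw [← ZMod.natCast_zmod_val v0, ZMod.natCast_eq_zero_iff]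
      exact h
    have hcong : ((u0.val ^ m : ℕ) : ZMod p) = ((v0.val ^ m + z.val : ℕ) : ZMod p) := by
      push_cast
      rw [ZMod.natCast_zmod_val, ZMod.natCast_zmod_val, ← huv]
      ring
    have hw : ¬ p ∣ v0.val ^ m + z.val := by
      intro h
      rw [← ZMod.natCast_eq_zero_iff, ← hcong, ZMod.natCast_eq_zero_iff] at h
      exact hu0' (hp1.dvd_of_dvd_pow h)
    obtain ⟨u, hu, hum⟩ := lift_pow (p := p) k m hm u0.val (v0.val ^ m + z.val) hu0' hw (by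
      rw [hnorm, one_pow, PadicInt.norm_int_lt_one_iff_dvd, ← ZMod.intCast_zmod_eq_zero_iff_dvd]
      have h2 : (((u0.val : ℤ) ^ m - ((v0.val ^ m + z.val : ℕ) : ℤ) : ℤ) : ZMod p)
          = ((u0.val ^ m : ℕ) : ZMod p) - ((v0.val ^ m + z.val : ℕ) : ZMod p) := by
        push_cast
        ring
      rw [h2, hcong, sub_self])
    refine ⟨u, ((v0.val : ℕ) : ZMod (p ^ k)), hu, isUnit_natCast_of_not_dvd hp1 hv0', ?_⟩
    rw [hum]
    push_cast
    rw [hz]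
    ring

theorem rep_small {p : ℕ} [hp : Fact p.Prime] (k m K : ℕ) (hm : 0 < m) (hpK : p ∣ K) :
    Rep m (m ^ 2 * K) (p ^ k) := by
  have hp1 : p.Prime := hp.out
  intro z
  have : NeZero (p ^ k) := ⟨pow_ne_zero _ hp1.ne_zero⟩
  have hz : ((z.val : ℕ) : ZMod (p ^ k)) = z := ZMod.natCast_zmod_val z
  have hw : ¬ p ∣ 1 + m ^ 2 * K * z.val := by
    intro h
    have h1 : p ∣ 1 := (Nat.dvd_add_left (Dvd.dvd.mul_right (Dvd.dvd.mul_left hpK _) _)).1 h
    exact hp1.one_lt.ne' (Nat.dvd_one.1 h1)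
  have h1 : ¬ p ∣ 1 := fun h => hp1.one_lt.ne' (Nat.dvd_one.1 h)
  have hm0 : 0 < ‖(m : ℤ_[p])‖ := by
    rw [norm_pos_iff]
    exact_mod_cast hm.ne'
  have hK : ‖(K : ℤ_[p])‖ < 1 := by
    have h3 : ‖((K : ℤ) : ℤ_[p])‖ < 1 := by
      rw [PadicInt.norm_int_lt_one_iff_dvd]
      exact_mod_cast hpK
    push_cast at h3
    exact h3
  obtain ⟨u, hu, hum⟩ := lift_pow (p := p) k m hm 1 (1 + m ^ 2 * K * z.val) h1 hw (by
    have h2 : (((1 : ℕ) : ℤ) ^ m - ((1 + m ^ 2 * K * z.val : ℕ) : ℤ)) = -((m : ℤ) ^ 2 * K * z.val) := by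
      push_cast
      rw [one_pow]
      ring
    rw [h2]
    push_cast
    rw [norm_neg, norm_mul, norm_mul, norm_pow]
    calc ‖(m : ℤ_[p])‖ ^ 2 * ‖(K : ℤ_[p])‖ * ‖(z.val : ℤ_[p])‖ ≤ ‖(m : ℤ_[p])‖ ^ 2 * ‖(K : ℤ_[p])‖ * 1 := by
          exact mul_le_mul_of_nonneg_left (PadicInt.norm_le_one _) (by positivity)
      _ < ‖(m : ℤ_[p])‖ ^ 2 * 1 := by
          rw [mul_one]
          exact mul_lt_mul_of_pos_left hK (by positivity)
      _ = ‖(m : ℤ_[p])‖ ^ 2 := mul_one _)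
  refine ⟨u, 1, hu, isUnit_one, ?_⟩
  rw [hum]
  push_cast
  rw [hz, one_pow]
  ring

theorem rep_mul {m L a b : ℕ} (hab : a.Coprime b) (ha : Rep m L a) (hb : Rep m L b) : Rep m L (a * b) := by
  intro z
  obtain ⟨u1, v1, hu1, hv1, h1⟩ := ha ((ZMod.chineseRemainder hab) z).1
  obtain ⟨u2, v2, hu2, hv2, h2⟩ := hb ((ZMod.chineseRemainder hab) z).2
  refine ⟨(ZMod.chineseRemainder hab).symm (u1, u2), (ZMod.chineseRemainder hab).symm (v1, v2), ?_, ?_, ?_⟩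
  · exact (Prod.isUnit_iff.2 ⟨hu1, hu2⟩).map (ZMod.chineseRemainder hab).symm
  · exact (Prod.isUnit_iff.2 ⟨hv1, hv2⟩).map (ZMod.chineseRemainder hab).symm
  · apply (ZMod.chineseRemainder hab).injective
    rw [map_sub, map_pow, map_pow, RingEquiv.apply_symm_apply, RingEquiv.apply_symm_apply, map_mul, map_natCast]
    refine Prod.ext ?_ ?_
    · exact h1
    · exact h2

theorem rep_of_dvd {m L L' N : ℕ} (h : L ∣ L') (hL : Rep m L N) : Rep m L' N := by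
  obtain ⟨c, rfl⟩ := h
  intro z
  obtain ⟨u, v, hu, hv, huv⟩ := hL ((c : ZMod N) * z)
  refine ⟨u, v, hu, hv, ?_⟩
  rw [huv]
  push_cast
  ring

/-- Every multiple of `m² ∏_{p ≤ 16 m⁴} p` modulo `N` is a difference of two `m`-th powers of units. -/
theorem rep_all (m : ℕ) (hm : 0 < m) (N : ℕ) (hN : N ≠ 0) : Rep m (m ^ 2 * primorial (16 * m ^ 4)) N := by
  induction N using Nat.recOnPosPrimePosCoprime with
  | prime_pow p k hp _ =>
    have : Fact p.Prime := ⟨hp⟩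
    by_cases h : 16 * m ^ 4 < p
    · exact rep_of_dvd (one_dvd _) (rep_big k m hm h)
    · exact rep_small k m _ hm (hp.dvd_primorial_iff.2 (not_lt.1 h))
  | zero => exact absurd rfl hN
  | one =>
    intro z
    exact ⟨1, 1, isUnit_one, isUnit_one, Subsingleton.elim _ _⟩
  | coprime a b ha hb hab iha ihb =>
    exact rep_mul hab (iha (by omega)) (ihb (by omega))

end Pool.Agent.Q174.BM
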