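import Mathlib

/-!
# Sets in `ℤ/N` with many approximate affine symmetries

If `M` is a multiple of every divisor `q` of `N` for which the dilation factors of the approximate affine symmetries of
`A` have fewer than `4 α^{-2}` residues modulo `q` then `2A - 2A` contains `M ℤ/N`.
-/

set_option autoImplicit false

namespace Pool.Agent.Q174.BM

open Finset

variable {N : ℕ} [NeZero N]

/-- The exponential sum of `A`. -/
noncomputable def F (A : Finset (ZMod N)) (ξ : ZMod N) : ℂ := ∑ a ∈ A, (ZMod.stdAddChar (ξ * a) : ℂ)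

theorem conj_F (A : Finset (ZMod N)) (ξ : ZMod N) :
    (starRingEnd ℂ) (F A ξ) = ∑ a ∈ A, (ZMod.stdAddChar (ξ * (-a)) : ℂ) := by
  rw [F, map_sum]
  refine sum_congr rfl fun a _ => ?_
  rw [mul_neg, AddChar.map_neg_eq_conj]

theorem F_zero (A : Finset (ZMod N)) : F A 0 = A.card := by
  rw [F]
  simp

theorem char_sum (b : ZMod N) : ∑ ξ : ZMod N, (ZMod.stdAddChar (ξ * b) : ℂ) = if b = 0 then (N : ℂ) else 0 := by
  rw [AddChar.sum_mulShift b (ZMod.isPrimitive_stdAddChar N), ZMod.card]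
  split_ifs <;> simp

theorem parseval (A : Finset (ZMod N)) : ∑ ξ : ZMod N, ‖F A ξ‖ ^ 2 = N * A.card := by
  have h1 : ∑ ξ : ZMod N, (F A ξ * (starRingEnd ℂ) (F A ξ)) = (N : ℂ) * A.card := by
    have h2 : ∀ ξ : ZMod N, F A ξ * (starRingEnd ℂ) (F A ξ)
        = ∑ a ∈ A, ∑ b ∈ A, (ZMod.stdAddChar (ξ * (a - b)) : ℂ) := by
      intro ξ
      rw [conj_F, F, sum_mul_sum]
      refine sum_congr rfl fun a _ => sum_congr rfl fun b _ => ?_
      rw [← AddChar.map_add_eq_mul]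
      congr 1
      ring
    rw [sum_congr rfl fun ξ _ => h2 ξ, sum_comm]
    have h3 : ∀ a ∈ A, ∑ ξ : ZMod N, ∑ b ∈ A, (ZMod.stdAddChar (ξ * (a - b)) : ℂ) = N := by
      intro a ha
      rw [sum_comm]
      have h4 : ∀ b ∈ A, ∑ ξ : ZMod N, (ZMod.stdAddChar (ξ * (a - b)) : ℂ) = if b = a then (N : ℂ) else 0 := by
        intro b _
        rw [char_sum]
        by_cases h : b = a
        · rw [if_pos h, if_pos (by rw [h, sub_self])]
        · rw [if_neg h, if_neg fun h' => h (sub_eq_zero.1 h').symm]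
      rw [sum_congr rfl h4, sum_ite_eq' A a, if_pos ha]
    rw [sum_congr rfl h3, sum_const, nsmul_eq_mul, mul_comm]
  have h5 : ((∑ ξ : ZMod N, ‖F A ξ‖ ^ 2 : ℝ) : ℂ) = ((N * A.card : ℝ) : ℂ) := by
    push_cast
    rw [← h1]
    refine sum_congr rfl fun ξ _ => ?_
    rw [Complex.mul_conj']
  exact_mod_cast h5

/-- If `x ∉ 2A - 2A` then `∑ |F|^4 e(- x ξ) = 0`. -/
theorem sum_fourth (A : Finset (ZMod N)) (x : ZMod N)
    (hx : ¬ ∃ a₁ ∈ A, ∃ a₂ ∈ A, ∃ a₃ ∈ A, ∃ a₄ ∈ A, x = a₁ + a₂ - a₃ - a₄) :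
    ∑ ξ : ZMod N, (((‖F A ξ‖ ^ 4 : ℝ) : ℂ) * (ZMod.stdAddChar (ξ * (-x)) : ℂ)) = 0 := by
  have h1 : ∀ ξ : ZMod N, (((‖F A ξ‖ ^ 4 : ℝ) : ℂ) * (ZMod.stdAddChar (ξ * (-x)) : ℂ))
      = ∑ a ∈ A, ∑ b ∈ A, ∑ c ∈ A, ∑ d ∈ A, (ZMod.stdAddChar (ξ * (a + c - b - d - x)) : ℂ) := by
    intro ξ
    have h2 : (((‖F A ξ‖ ^ 4 : ℝ) : ℂ)) = (F A ξ * (starRingEnd ℂ) (F A ξ)) * (F A ξ * (starRingEnd ℂ) (F A ξ)) := by
      rw [Complex.mul_conj']
      push_cast
      ring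
    have h3 : F A ξ * (starRingEnd ℂ) (F A ξ) = ∑ a ∈ A, ∑ b ∈ A, (ZMod.stdAddChar (ξ * (a - b)) : ℂ) := by
      rw [conj_F, F, sum_mul_sum]
      refine sum_congr rfl fun a _ => sum_congr rfl fun b _ => ?_
      rw [← AddChar.map_add_eq_mul]
      congr 1
      ring
    rw [h2, h3, sum_mul, sum_mul]
    refine sum_congr rfl fun a _ => ?_
    rw [sum_mul, sum_mul]
    refine sum_congr rfl fun b _ => ?_
    rw [mul_sum, sum_mul]
    refine sum_congr rfl fun c _ => ?_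
    rw [mul_sum, sum_mul]
    refine sum_congr rfl fun d _ => ?_
    rw [← AddChar.map_add_eq_mul, ← AddChar.map_add_eq_mul]
    congr 1
    ring
  rw [sum_congr rfl fun ξ _ => h1 ξ, sum_comm]
  refine sum_eq_zero fun a ha => ?_
  rw [sum_comm]
  refine sum_eq_zero fun b hb => ?_
  rw [sum_comm]
  refine sum_eq_zero fun c hc => ?_
  rw [sum_comm]
  refine sum_eq_zero fun d hd => ?_
  rw [char_sum, if_neg]
  intro h
  exact hx ⟨a, ha, c, hc, b, hb, d, hd, (sub_eq_zero.1 h).symm⟩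

/-- If `x ∉ 2A - 2A` then there is a large Fourier coefficient at a frequency which does not annihilate `x`. -/
theorem exists_large (A : Finset (ZMod N)) (hA : A.Nonempty) (x : ZMod N)
    (hx : ¬ ∃ a₁ ∈ A, ∃ a₂ ∈ A, ∃ a₃ ∈ A, ∃ a₄ ∈ A, x = a₁ + a₂ - a₃ - a₄) :
    ∃ ξ : ZMod N, ξ * x ≠ 0 ∧ (A.card : ℝ) ^ 3 < N * ‖F A ξ‖ ^ 2 := by
  have hN : 0 < N := Nat.pos_of_ne_zero (NeZero.ne N)
  have hNR : (0 : ℝ) < N := by exact_mod_cast hN
  have hA0 : (0 : ℝ) < A.card := by exact_mod_cast hA.card_pos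
  by_contra hcon
  have hsmall : ∀ ξ : ZMod N, ξ * x ≠ 0 → N * ‖F A ξ‖ ^ 2 ≤ (A.card : ℝ) ^ 3 := by
    intro ξ hξ
    exact not_lt.1 fun h => hcon ⟨ξ, hξ, h⟩
  have h0 := sum_fourth A x hx
  rw [← sum_filter_add_sum_filter_not univ (fun ξ : ZMod N => ξ * x = 0)] at h0
  have hreal : ∑ ξ ∈ univ.filter (fun ξ : ZMod N => ξ * x = 0),
      (((‖F A ξ‖ ^ 4 : ℝ) : ℂ) * (ZMod.stdAddChar (ξ * (-x)) : ℂ))
      = ((∑ ξ ∈ univ.filter (fun ξ : ZMod N => ξ * x = 0), ‖F A ξ‖ ^ 4 : ℝ) : ℂ) := by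
    rw [Complex.ofReal_sum]
    refine sum_congr rfl fun ξ hξ => ?_
    rw [mul_neg, (mem_filter.1 hξ).2, neg_zero, AddChar.map_zero_eq_one, mul_one]
  rw [hreal] at h0
  have hge : (A.card : ℝ) ^ 4 ≤ ∑ ξ ∈ univ.filter (fun ξ : ZMod N => ξ * x = 0), ‖F A ξ‖ ^ 4 := by
    have h1 : ‖F A 0‖ ^ 4 ≤ ∑ ξ ∈ univ.filter (fun ξ : ZMod N => ξ * x = 0), ‖F A ξ‖ ^ 4 :=
      single_le_sum (f := fun ξ => ‖F A ξ‖ ^ 4) (fun _ _ => by positivity)
        (mem_filter.2 ⟨mem_univ _, zero_mul x⟩)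
    rwa [F_zero, Complex.norm_natCast] at h1
  have h1 : (A.card : ℝ) ^ 4 ≤ ∑ ξ ∈ univ.filter (fun ξ : ZMod N => ¬ ξ * x = 0), ‖F A ξ‖ ^ 4 := by
    have h2 : ((∑ ξ ∈ univ.filter (fun ξ : ZMod N => ξ * x = 0), ‖F A ξ‖ ^ 4 : ℝ) : ℂ)
        = -∑ ξ ∈ univ.filter (fun ξ : ZMod N => ¬ ξ * x = 0),
        (((‖F A ξ‖ ^ 4 : ℝ) : ℂ) * (ZMod.stdAddChar (ξ * (-x)) : ℂ)) :=
      eq_neg_of_add_eq_zero_left h0
    have h3 := congrArg (fun z : ℂ => ‖z‖) h2
    have h4 : ‖((∑ ξ ∈ univ.filter (fun ξ : ZMod N => ξ * x = 0), ‖F A ξ‖ ^ 4 : ℝ) : ℂ)‖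
        = ∑ ξ ∈ univ.filter (fun ξ : ZMod N => ξ * x = 0), ‖F A ξ‖ ^ 4 := by
      rw [Complex.norm_real, Real.norm_of_nonneg (sum_nonneg fun _ _ => by positivity)]
    have h5 : ‖-∑ ξ ∈ univ.filter (fun ξ : ZMod N => ¬ ξ * x = 0),
        (((‖F A ξ‖ ^ 4 : ℝ) : ℂ) * (ZMod.stdAddChar (ξ * (-x)) : ℂ))‖
        ≤ ∑ ξ ∈ univ.filter (fun ξ : ZMod N => ¬ ξ * x = 0), ‖F A ξ‖ ^ 4 := by
      rw [norm_neg]
      refine (norm_sum_le _ _).trans (sum_le_sum fun ξ _ => ?_)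
      rw [norm_mul, AddChar.norm_apply, mul_one, Complex.norm_real, Real.norm_of_nonneg (by positivity)]
    have h6 : ‖((∑ ξ ∈ univ.filter (fun ξ : ZMod N => ξ * x = 0), ‖F A ξ‖ ^ 4 : ℝ) : ℂ)‖
        = ‖-∑ ξ ∈ univ.filter (fun ξ : ZMod N => ¬ ξ * x = 0),
        (((‖F A ξ‖ ^ 4 : ℝ) : ℂ) * (ZMod.stdAddChar (ξ * (-x)) : ℂ))‖ := h3
    rw [h4] at h6
    linarith
  have h4 : (N : ℝ) * ∑ ξ ∈ univ.filter (fun ξ : ZMod N => ¬ ξ * x = 0), ‖F A ξ‖ ^ 4
      ≤ (A.card : ℝ) ^ 3 * ∑ ξ ∈ univ.filter (fun ξ : ZMod N => ¬ ξ * x = 0), ‖F A ξ‖ ^ 2 := by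
    rw [mul_sum, mul_sum]
    refine sum_le_sum fun ξ hξ => ?_
    have h5 := hsmall ξ (mem_filter.1 hξ).2
    have h6 : N * ‖F A ξ‖ ^ 2 * ‖F A ξ‖ ^ 2 ≤ (A.card : ℝ) ^ 3 * ‖F A ξ‖ ^ 2 :=
      mul_le_mul_of_nonneg_right h5 (by positivity)
    calc (N : ℝ) * ‖F A ξ‖ ^ 4 = N * ‖F A ξ‖ ^ 2 * ‖F A ξ‖ ^ 2 := by ring
      _ ≤ (A.card : ℝ) ^ 3 * ‖F A ξ‖ ^ 2 := h6
  have h7 := parseval A
  rw [← add_sum_erase univ _ (mem_univ (0 : ZMod N)), F_zero, Complex.norm_natCast] at h7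
  have h8 : ∑ ξ ∈ univ.filter (fun ξ : ZMod N => ¬ ξ * x = 0), ‖F A ξ‖ ^ 2
      ≤ N * A.card - (A.card : ℝ) ^ 2 := by
    have h9 : ∑ ξ ∈ univ.filter (fun ξ : ZMod N => ¬ ξ * x = 0), ‖F A ξ‖ ^ 2
        ≤ ∑ ξ ∈ univ.erase (0 : ZMod N), ‖F A ξ‖ ^ 2 := by
      refine sum_le_sum_of_subset_of_nonneg (fun ξ hξ => ?_) fun _ _ _ => by positivity
      rw [mem_erase]
      refine ⟨?_, mem_univ _⟩
      rintro rfl
      exact (mem_filter.1 hξ).2 (zero_mul x)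
    linarith
  have h9 : (N : ℝ) * (A.card : ℝ) ^ 4 ≤ (A.card : ℝ) ^ 3 * (N * A.card - (A.card : ℝ) ^ 2) :=
    (mul_le_mul_of_nonneg_left h1 hNR.le).trans (h4.trans (mul_le_mul_of_nonneg_left h8 (by positivity)))
  have h10 : 0 < (A.card : ℝ) ^ 5 := by positivity
  nlinarith

/-- An approximate symmetry `x ↦ h x + t` with the unit `h`. -/
theorem F_symm (A : Finset (ZMod N)) (h t ξ : ZMod N) (hh : IsUnit h) :
    ‖F A ξ‖ ≤ ‖F A (ξ * h)‖ + 2 * (A.card - (A.filter fun a => h * a + t ∈ A).card : ℝ) := by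
  have hinj : Function.Injective fun a : ZMod N => h * a + t := by
    intro a b hab
    exact hh.mul_left_cancel (add_right_cancel hab)
  have h1 : ‖F A (ξ * h)‖ = ‖∑ b ∈ A.image (fun a => h * a + t), (ZMod.stdAddChar (ξ * b) : ℂ)‖ := by
    rw [sum_image fun a _ b _ hab => hinj hab]
    have h2 : ∀ a ∈ A, (ZMod.stdAddChar (ξ * (h * a + t)) : ℂ)
        = (ZMod.stdAddChar (ξ * t) : ℂ) * (ZMod.stdAddChar (ξ * h * a) : ℂ) := by
      intro a _
      rw [← AddChar.map_add_eq_mul]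
      congr 1
      ring
    rw [sum_congr rfl h2, ← mul_sum, norm_mul, AddChar.norm_apply, one_mul, F]
  have h3 : F A ξ = ∑ b ∈ A.image (fun a => h * a + t), (ZMod.stdAddChar (ξ * b) : ℂ)
      + (∑ b ∈ A \ A.image (fun a => h * a + t), (ZMod.stdAddChar (ξ * b) : ℂ)
        - ∑ b ∈ A.image (fun a => h * a + t) \ A, (ZMod.stdAddChar (ξ * b) : ℂ)) := by
    rw [sum_sdiff_sub_sum_sdiff, F]
    ring
  have hbound : ∀ B : Finset (ZMod N), ‖∑ b ∈ B, (ZMod.stdAddChar (ξ * b) : ℂ)‖ ≤ B.card := by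
    intro B
    refine (norm_sum_le _ _).trans ?_
    rw [sum_congr rfl fun b _ => AddChar.norm_apply _ _, sum_const, nsmul_eq_mul, mul_one]
  have h4 : (A ∩ A.image (fun a => h * a + t)).card = (A.filter fun a => h * a + t ∈ A).card := by
    have h5 : A ∩ A.image (fun a => h * a + t) = (A.filter fun a => h * a + t ∈ A).image (fun a => h * a + t) := by
      ext b
      rw [mem_inter, mem_image, mem_image]
      constructor
      · rintro ⟨hb, a, ha, rfl⟩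
        exact ⟨a, mem_filter.2 ⟨ha, hb⟩, rfl⟩
      · rintro ⟨a, ha, rfl⟩
        exact ⟨(mem_filter.1 ha).2, a, (mem_filter.1 ha).1, rfl⟩
    rw [h5, card_image_of_injective _ hinj]
  have h6 : ((A \ A.image (fun a => h * a + t)).card : ℝ) = A.card - (A.filter fun a => h * a + t ∈ A).card := by
    have h7 := card_sdiff_add_card_inter A (A.image (fun a => h * a + t))
    rw [h4] at h7
    have h8 : ((A \ A.image (fun a => h * a + t)).card : ℝ) + (A.filter fun a => h * a + t ∈ A).card = A.card := by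
      exact_mod_cast h7
    linarith
  have h7 : ((A.image (fun a => h * a + t) \ A).card : ℝ) = A.card - (A.filter fun a => h * a + t ∈ A).card := by
    have h8 := card_sdiff_add_card_inter (A.image (fun a => h * a + t)) A
    rw [inter_comm, h4, card_image_of_injective _ hinj] at h8
    have h9 : ((A.image (fun a => h * a + t) \ A).card : ℝ) + (A.filter fun a => h * a + t ∈ A).card = A.card := by
      exact_mod_cast h8
    linarith
  rw [h1]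
  calc ‖F A ξ‖ ≤ ‖∑ b ∈ A.image (fun a => h * a + t), (ZMod.stdAddChar (ξ * b) : ℂ)‖
        + (‖∑ b ∈ A \ A.image (fun a => h * a + t), (ZMod.stdAddChar (ξ * b) : ℂ)‖
          + ‖∑ b ∈ A.image (fun a => h * a + t) \ A, (ZMod.stdAddChar (ξ * b) : ℂ)‖) := by
        rw [h3]
        exact (norm_add_le _ _).trans (add_le_add_right (norm_sub_le _ _) _)
    _ ≤ ‖∑ b ∈ A.image (fun a => h * a + t), (ZMod.stdAddChar (ξ * b) : ℂ)‖
        + 2 * (A.card - (A.filter fun a => h * a + t ∈ A).card : ℝ) := by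
        have h8 := hbound (A \ A.image (fun a => h * a + t))
        have h9 := hbound (A.image (fun a => h * a + t) \ A)
        rw [h6] at h8
        rw [h7] at h9
        linarith

/-- The order `q` of the frequency `ξ`. -/
theorem order_spec (ξ : ZMod N) :
    ∃ q : ℕ, q ∣ N ∧ (∀ h k : ZMod N, ξ * h = ξ * k → h.val % q = k.val % q) ∧
      ∀ M : ℕ, q ∣ M → ξ * (M : ZMod N) = 0 := by
  have hN : 0 < N := Nat.pos_of_ne_zero (NeZero.ne N)
  have hg : 0 < Nat.gcd ξ.val N := Nat.gcd_pos_of_pos_right _ hN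
  refine ⟨N / Nat.gcd ξ.val N, Nat.div_dvd_of_dvd (Nat.gcd_dvd_right _ _), fun h k hhk => ?_, fun M hM => ?_⟩
  · have h1 : (N : ℤ) ∣ (ξ.val : ℤ) * ((h.val : ℤ) - k.val) := by
      rw [← ZMod.intCast_zmod_eq_zero_iff_dvd]
      push_cast
      rw [ZMod.natCast_zmod_val, ZMod.natCast_zmod_val, ZMod.natCast_zmod_val, mul_sub, hhk, sub_self]
    have h2 : ((N / Nat.gcd ξ.val N : ℕ) : ℤ) ∣ ((h.val : ℤ) - k.val) := by
      have hco : Nat.Coprime (N / Nat.gcd ξ.val N) (ξ.val / Nat.gcd ξ.val N) :=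
        (Nat.coprime_div_gcd_div_gcd hg).symm
      have h3 : ((N / Nat.gcd ξ.val N : ℕ) : ℤ) ∣ ((ξ.val / Nat.gcd ξ.val N : ℕ) : ℤ) * ((h.val : ℤ) - k.val) := by
        obtain ⟨c, hc⟩ := h1
        refine ⟨c, ?_⟩
        have hgZ : ((Nat.gcd ξ.val N : ℕ) : ℤ) ≠ 0 := by exact_mod_cast hg.ne'
        apply mul_left_cancel₀ hgZ
        have h4 : ((Nat.gcd ξ.val N : ℕ) : ℤ) * ((ξ.val / Nat.gcd ξ.val N : ℕ) : ℤ) = (ξ.val : ℤ) := by
          exact_mod_cast Nat.mul_div_cancel' (Nat.gcd_dvd_left ξ.val N)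
        have h5 : ((Nat.gcd ξ.val N : ℕ) : ℤ) * ((N / Nat.gcd ξ.val N : ℕ) : ℤ) = (N : ℤ) := by
          exact_mod_cast Nat.mul_div_cancel' (Nat.gcd_dvd_right ξ.val N)
        rw [← mul_assoc, h4, ← mul_assoc, h5, hc]
      exact IsCoprime.dvd_of_dvd_mul_left (Nat.isCoprime_iff_coprime.2 hco) h3
    have h4 : k.val ≡ h.val [MOD N / Nat.gcd ξ.val N] := (Nat.modEq_iff_dvd).2 h2
    exact h4.symm
  · have h1 : N ∣ ξ.val * M := by
      obtain ⟨c, hc⟩ := hM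
      obtain ⟨d, hd⟩ := Nat.gcd_dvd_left ξ.val N
      have h2 : Nat.gcd ξ.val N * (N / Nat.gcd ξ.val N) = N := Nat.mul_div_cancel' (Nat.gcd_dvd_right ξ.val N)
      refine ⟨d * c, ?_⟩
      calc ξ.val * M = (Nat.gcd ξ.val N * d) * ((N / Nat.gcd ξ.val N) * c) := by rw [← hd, ← hc]
        _ = (Nat.gcd ξ.val N * (N / Nat.gcd ξ.val N)) * (d * c) := by ring
        _ = N * (d * c) := by rw [h2]
    rw [← ZMod.natCast_eq_zero_iff] at h1
    rw [Nat.cast_mul, ZMod.natCast_zmod_val] at h1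
    exact h1

/-- Sets with many approximate affine symmetries. -/
theorem many_symmetries (A : Finset (ZMod N)) (hA : A.Nonempty) (S : Finset (ZMod N))
    (hS : ∀ h ∈ S, IsUnit h ∧ ∃ t : ZMod N,
      (1 - Real.sqrt (A.card / N) / 4) * A.card ≤ ((A.filter fun a => h * a + t ∈ A).card : ℝ))
    (M : ℕ) (hM : ∀ q : ℕ, q ∣ N → ((S.image fun h => h.val % q).card : ℝ) < 4 * ((N : ℝ) / A.card) ^ 2 → q ∣ M)
    (w : ZMod N) : ∃ a₁ ∈ A, ∃ a₂ ∈ A, ∃ a₃ ∈ A, ∃ a₄ ∈ A, (M : ZMod N) * w = a₁ + a₂ - a₃ - a₄ := by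
  have hN : 0 < N := Nat.pos_of_ne_zero (NeZero.ne N)
  have hNR : (0 : ℝ) < N := by exact_mod_cast hN
  have hA0 : (0 : ℝ) < A.card := by exact_mod_cast hA.card_pos
  by_contra hx
  obtain ⟨ξ, hξ, hlarge⟩ := exists_large A hA _ hx
  have hs0 : 0 < Real.sqrt (A.card / N) := Real.sqrt_pos.2 (by positivity)
  have hs : Real.sqrt (A.card / N) ^ 2 = A.card / N := Real.sq_sqrt (by positivity)
  have h1 : Real.sqrt (A.card / N) * A.card < ‖F A ξ‖ := by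
    refine lt_of_pow_lt_pow_left₀ 2 (norm_nonneg _) ?_
    rw [mul_pow, hs]
    have h2 : (A.card : ℝ) / N * (A.card : ℝ) ^ 2 = (A.card : ℝ) ^ 3 / N := by ring
    rw [h2, div_lt_iff₀ hNR]
    linarith
  have h2 : ∀ h ∈ S, Real.sqrt (A.card / N) / 2 * A.card < ‖F A (ξ * h)‖ := by
    intro h hh
    obtain ⟨hu, t, ht⟩ := hS h hh
    have h3 := F_symm A h t ξ hu
    linarith
  obtain ⟨q, hqN, hinj, hann⟩ := order_spec ξ
  have hqM : ¬ q ∣ M := by
    intro h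
    apply hξ
    rw [← mul_assoc, hann M h, zero_mul]
  have hbig : 4 * ((N : ℝ) / A.card) ^ 2 ≤ ((S.image fun h => h.val % q).card : ℝ) :=
    not_lt.1 fun h => hqM (hM q hqN h)
  have h3 : ((S.image fun h => h.val % q).card : ℝ) ≤ ((S.image fun h => ξ * h).card : ℝ) := by
    have h4 : (S.image fun h => h.val % q).card ≤ (S.image fun h => ξ * h).card := by
      classical
      have h5 : ∀ r ∈ S.image fun h => h.val % q, ∃ h ∈ S, h.val % q = r := by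
        intro r hr
        rw [mem_image] at hr
        exact hr
      choose! g hgS hg using h5
      refine card_le_card_of_injOn (fun r => ξ * g r) ?_ ?_
      · intro r hr
        exact mem_coe.2 (mem_image.2 ⟨g r, hgS r (mem_coe.1 hr), rfl⟩)
      · intro r hr s hs' hrs
        have h6 := hinj _ _ hrs
        rw [hg r (mem_coe.1 hr), hg s (mem_coe.1 hs')] at h6
        exact h6
    exact_mod_cast h4
  have h4 : ((S.image fun h => ξ * h).card : ℝ) * (Real.sqrt (A.card / N) / 2 * A.card) ^ 2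
      < ∑ η ∈ S.image (fun h => ξ * h), ‖F A η‖ ^ 2 := by
    rw [← nsmul_eq_mul, ← sum_const]
    refine sum_lt_sum_of_nonempty ?_ fun η hη => ?_
    · rw [← card_pos]
      have h5 : (0 : ℝ) < 4 * ((N : ℝ) / A.card) ^ 2 := by positivity
      have h6 := lt_of_lt_of_le h5 (hbig.trans h3)
      exact_mod_cast h6
    · rw [mem_image] at hη
      obtain ⟨h, hh, rfl⟩ := hη
      exact pow_lt_pow_left₀ (h2 h hh) (by positivity) (by norm_num)
  have h5 : ∑ η ∈ S.image (fun h => ξ * h), ‖F A η‖ ^ 2 ≤ N * A.card := by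
    rw [← parseval A]
    exact sum_le_sum_of_subset_of_nonneg (subset_univ _) fun _ _ _ => by positivity
  have h6 : (4 * ((N : ℝ) / A.card) ^ 2) * (Real.sqrt (A.card / N) / 2 * A.card) ^ 2 = N * A.card := by
    have h8 : (Real.sqrt (A.card / N) / 2 * A.card) ^ 2 = Real.sqrt (A.card / N) ^ 2 / 4 * (A.card : ℝ) ^ 2 := by
      ring
    rw [h8, hs]
    field_simp
  have h7 : (4 * ((N : ℝ) / A.card) ^ 2) * (Real.sqrt (A.card / N) / 2 * A.card) ^ 2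
      ≤ ((S.image fun h => ξ * h).card : ℝ) * (Real.sqrt (A.card / N) / 2 * A.card) ^ 2 :=
    mul_le_mul_of_nonneg_right (hbig.trans h3) (by positivity)
  linarith

end Pool.Agent.Q174.BM
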